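import Mathlib

open MeasureTheory intervalIntegral Set
open scoped ENNReal Real

namespace Pool.Agent.Results.MP_d27861_lc.ShoreBound

/-- the Euclidean plane -/
abbrev Plane := EuclideanSpace ℝ (Fin 2)

/-- a deterministic trajectory of the searcher: starts at the origin `O` and has
speed at most one on `[0, ∞)` -/
def IsTrajectory (γ : ℝ → Plane) : Prop :=
  γ 0 = 0 ∧ ∀ s t : ℝ, 0 ≤ s → 0 ≤ t → ‖γ s - γ t‖ ≤ |s - t|

/-- a shore: a straight line of the plane which does not pass through `O` -/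
def IsShore (L : AffineSubspace ℝ Plane) : Prop :=
  (L : Set Plane).Nonempty ∧ Module.finrank ℝ L.direction = 1 ∧ (0 : Plane) ∉ L

/-- `D(L) = dist(O, L)` -/
noncomputable def shoreDist (L : AffineSubspace ℝ Plane) : ℝ :=
  Metric.infDist (0 : Plane) (L : Set Plane)

/-- the hitting time `τ_γ(L) = inf {t ≥ 0 : γ(t) ∈ L}`, with `inf ∅ = ∞` -/
noncomputable def hitTime (γ : ℝ → Plane) (L : AffineSubspace ℝ Plane) : ℝ≥0∞ :=
  ⨅ t ∈ {t : ℝ | 0 ≤ t ∧ γ t ∈ L}, ENNReal.ofReal t

/-- the competitive ratio `ρ(γ) = sup_L τ_γ(L) / D(L)` -/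
noncomputable def ratio (γ : ℝ → Plane) : ℝ≥0∞ :=
  ⨆ L ∈ {L : AffineSubspace ℝ Plane | IsShore L}, hitTime γ L / ENNReal.ofReal (shoreDist L)

/-- the minimax competitive ratio `ρ* = inf_γ ρ(γ)` -/
noncomputable def rhoStar : ℝ≥0∞ :=
  ⨅ γ ∈ {γ : ℝ → Plane | IsTrajectory γ}, ratio γ

/-! ### One-dimensional search -/

/-- a one-dimensional search path finding both points `±d` before time `(64/5) d` -/
structure Search1 (x : ℝ → ℝ) : Prop where
  zero : x 0 = 0
  lip : ∀ s t, |x s - x t| ≤ |s - t|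
  hitp : ∀ d, 0 < d → ∃ t, 0 ≤ t ∧ t ≤ 64 / 5 * d ∧ x t = d
  hitm : ∀ d, 0 < d → ∃ t, 0 ≤ t ∧ t ≤ 64 / 5 * d ∧ x t = -d

/-- the cost function -/
noncomputable def psi (v : ℝ) : ℝ := v + 3 / 5 * v ^ 2

/-- the dual cost function -/
noncomputable def kap (y : ℝ) : ℝ := 5 / 12 * (max (y - 1) 0) ^ 2

noncomputable def PP : ℝ := 5 / 12 * (Real.log (5 / 2) - 3 / 8)

/-- state of the search: at time `s` the path is at its right record `a`, the left record is `-b` -/
structure St (x : ℝ → ℝ) (s a b : ℝ) : Prop where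
  hs : 0 < s
  ha : 0 < a
  hb : 0 < b
  pos : x s = a
  up : ∀ t, 0 ≤ t → t ≤ s → x t ≤ a
  down : ∀ t, 0 ≤ t → t ≤ s → -b ≤ x t
  att : ∃ t, 0 ≤ t ∧ t ≤ s ∧ x t = -b
  tm : s ≤ 64 / 5 * a

theorem Search1.neg {x : ℝ → ℝ} (h : Search1 x) : Search1 (fun t => -x t) where
  zero := by simp [h.zero]
  lip := fun s t => by
    have := h.lip s t
    rw [show -x s - -x t = -(x s - x t) by ring, abs_neg]; exact this
  hitp := fun d hd => by
    obtain ⟨t, h0, h1, h2⟩ := h.hitm d hd
    exact ⟨t, h0, h1, by simp [h2]⟩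
  hitm := fun d hd => by
    obtain ⟨t, h0, h1, h2⟩ := h.hitp d hd
    exact ⟨t, h0, h1, by simp [h2]⟩

theorem Search1.cont {x : ℝ → ℝ} (h : Search1 x) : Continuous x := by
  have : LipschitzWith 1 x := by
    apply LipschitzWith.of_dist_le_mul
    intro s t
    simpa [Real.dist_eq] using h.lip s t
  exact this.continuous

theorem pointwise (v y : ℝ) (hv : 0 ≤ v) : y * v - kap y ≤ psi v := by
  unfold kap psi
  rcases le_total y 1 with h | h
  · rw [max_eq_right (by linarith)]
    nlinarith [sq_nonneg v]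
  · rw [max_eq_left (by linarith)]
    nlinarith [sq_nonneg (v - 5 / 6 * (y - 1))]

theorem F_deriv (y : ℝ) (hy : 0 < y) :
    HasDerivAt (fun y : ℝ => y ^ 2 / 2 - 2 * y + Real.log y) (y - 2 + y⁻¹) y := by
  have h1 := ((hasDerivAt_pow 2 y).div_const 2).sub ((hasDerivAt_id y).const_mul 2)
  have h2 := h1.add (Real.hasDerivAt_log hy.ne')
  refine h2.congr_deriv ?_
  simp

theorem F_mono {a b : ℝ} (ha : 1 ≤ a) (hab : a ≤ b) :
    a ^ 2 / 2 - 2 * a + Real.log a ≤ b ^ 2 / 2 - 2 * b + Real.log b := by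
  have hmono : MonotoneOn (fun y : ℝ => y ^ 2 / 2 - 2 * y + Real.log y) (Set.Ici 1) := by
    apply monotoneOn_of_deriv_nonneg (convex_Ici 1)
    · intro y hy
      have hy' : (1 : ℝ) ≤ y := hy
      exact (F_deriv y (by linarith)).continuousAt.continuousWithinAt
    · intro y hy
      rw [interior_Ici] at hy
      have hy' : (1 : ℝ) < y := hy
      exact (F_deriv y (by linarith)).differentiableAt.differentiableWithinAt
    · intro y hy
      rw [interior_Ici] at hy
      have hy' : (1 : ℝ) < y := hy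
      have hy0 : 0 < y := by linarith
      rw [(F_deriv y hy0).deriv]
      have : y - 2 + y⁻¹ = (y - 1) ^ 2 / y := by
        field_simp
        ring
      rw [this]
      positivity
  exact hmono (show (1 : ℝ) ≤ a from ha) (show (1 : ℝ) ≤ b by linarith) hab


theorem int_kap (μ s s' : ℝ) (hμ : 0 < μ) (hs : 0 < s) (hss : s ≤ s') (h : μ * s' ≤ 5 / 2) :
    ∫ t in s..s', kap (μ * t) / t ≤ PP := by
  have hs' : 0 < s' := lt_of_lt_of_le hs hss
  have hPP : 0 ≤ PP := by
    have h1 := Real.one_sub_inv_le_log_of_pos (show (0 : ℝ) < 5 / 2 by norm_num)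
    unfold PP
    have : (3 : ℝ) / 8 ≤ Real.log (5 / 2) := by
      refine le_trans ?_ h1
      norm_num
    linarith
  have hzero : ∀ a b : ℝ, 0 < a → a ≤ b → μ * b ≤ 1 → ∫ t in a..b, kap (μ * t) / t = 0 := by
    intro a b ha hab hb
    rw [intervalIntegral.integral_congr (g := fun _ => (0 : ℝ))]
    · simp
    · intro t ht
      rw [Set.uIcc_of_le hab] at ht
      have h1 : μ * t ≤ 1 := le_trans (mul_le_mul_of_nonneg_left ht.2 hμ.le) hb
      have h2 : max (μ * t - 1) 0 = 0 := max_eq_right (by linarith)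
      simp only [kap, h2]
      simp
  by_cases hc : μ * s' ≤ 1
  · rw [hzero s s' hs hss hc]
    exact hPP
  · push Not at hc
    have hcont : ∀ a b : ℝ, 0 < a → a ≤ b → IntervalIntegrable (fun t => kap (μ * t) / t) volume a b := by
      intro a b ha hab
      apply ContinuousOn.intervalIntegrable
      rw [Set.uIcc_of_le hab]
      apply ContinuousOn.div
      · unfold kap
        fun_prop
      · fun_prop
      · intro t ht
        have := ht.1
        linarith
    have hmain : ∀ a b : ℝ, 0 < a → a ≤ b → 1 ≤ μ * a → μ * b ≤ 5 / 2 →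
        ∫ t in a..b, kap (μ * t) / t ≤ PP := by
      intro a b ha hab h1 h2
      have hder : ∀ t ∈ Set.uIcc a b, HasDerivAt (fun t : ℝ => 5 / 12 * ((μ * t) ^ 2 / 2 - 2 * (μ * t) + Real.log (μ * t)))
          (5 / 12 * (μ ^ 2 * t - 2 * μ + t⁻¹)) t := by
        intro t ht
        rw [Set.uIcc_of_le hab] at ht
        have ht0 : 0 < t := lt_of_lt_of_le ha ht.1
        have e1 := (F_deriv (μ * t) (by positivity)).comp t ((hasDerivAt_id t).const_mul μ)
        have e2 := e1.const_mul (5 / 12)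
        refine e2.congr_deriv ?_
        field_simp
      have hint := intervalIntegral.integral_eq_sub_of_hasDerivAt hder (by
        apply ContinuousOn.intervalIntegrable
        rw [Set.uIcc_of_le hab]
        intro t ht
        have ht0 : t ≠ 0 := by
          have := ht.1
          linarith
        apply ContinuousAt.continuousWithinAt
        fun_prop (disch := assumption))
      have hcongr : ∫ t in a..b, kap (μ * t) / t = ∫ t in a..b, (5 / 12 * (μ ^ 2 * t - 2 * μ + t⁻¹)) := by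
        apply intervalIntegral.integral_congr
        intro t ht
        rw [Set.uIcc_of_le hab] at ht
        have ht0 : 0 < t := lt_of_lt_of_le ha ht.1
        have h3 : 1 ≤ μ * t := le_trans h1 (mul_le_mul_of_nonneg_left ht.1 hμ.le)
        have h4 : max (μ * t - 1) 0 = μ * t - 1 := max_eq_left (by linarith)
        simp only [kap, h4]
        field_simp
        ring
      rw [hcongr, hint]
      have hb : 1 ≤ μ * b := le_trans h1 (mul_le_mul_of_nonneg_left hab hμ.le)
      have m1 := F_mono hb h2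
      have m2 := F_mono (le_refl (1 : ℝ)) h1
      rw [Real.log_one] at m2
      unfold PP
      nlinarith
    by_cases hc2 : 1 ≤ μ * s
    · exact hmain s s' hs hss hc2 h
    · push Not at hc2
      have ht0 : 0 < 1 / μ := by positivity
      have e1 : s ≤ 1 / μ := by
        rw [le_div_iff₀ hμ]
        linarith
      have e2 : 1 / μ ≤ s' := by
        rw [div_le_iff₀ hμ]
        linarith
      have e3 : μ * (1 / μ) = 1 := by field_simp
      rw [← intervalIntegral.integral_add_adjacent_intervals (hcont s (1 / μ) hs e1) (hcont (1 / μ) s' ht0 e2),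
        hzero s (1 / μ) hs e1 e3.le, zero_add]
      exact hmain (1 / μ) s' ht0 e2 e3.ge h

theorem variation (x : ℝ → ℝ) (hl : ∀ s t, |x s - x t| ≤ |s - t|) (a b : ℝ) (hab : a ≤ b) :
    |x b - x a| - 1 ≤ ∫ t in a..b, |x (t + 1) - x t| := by
  have hc : Continuous x := by
    have : LipschitzWith 1 x := by
      apply LipschitzWith.of_dist_le_mul
      intro s t
      simpa [Real.dist_eq] using hl s t
    exact this.continuous
  have key : ∀ c : ℝ, |(∫ t in c..(c+1), x t) - x c| ≤ 1 / 2 := by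
    intro c
    have e1 : (∫ t in c..(c+1), x t) - x c = ∫ t in c..(c+1), (x t - x c) := by
      rw [intervalIntegral.integral_sub (hc.intervalIntegrable _ _) (by simp)]
      simp
    rw [e1]
    have h1 : |∫ t in c..(c+1), (x t - x c)| ≤ ∫ t in c..(c+1), |x t - x c| :=
      intervalIntegral.abs_integral_le_integral_abs (by linarith)
    have h2 : (∫ t in c..(c+1), |x t - x c|) ≤ ∫ t in c..(c+1), (t - c) := by
      apply intervalIntegral.integral_mono_on (by linarith)
      · exact ((hc.sub continuous_const).abs).intervalIntegrable _ _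
      · exact (continuous_id.sub continuous_const).intervalIntegrable _ _
      · intro t ht
        have := hl t c
        rwa [abs_of_nonneg (by linarith [ht.1] : (0:ℝ) ≤ t - c)] at this
    have h3 : (∫ t in c..(c+1), (t - c)) = 1 / 2 := by
      have hid : IntervalIntegrable (fun t : ℝ => t) MeasureTheory.volume c (c+1) :=
        continuous_id.intervalIntegrable _ _
      have hcc : IntervalIntegrable (fun _ : ℝ => c) MeasureTheory.volume c (c+1) :=
        continuous_const.intervalIntegrable _ _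
      rw [intervalIntegral.integral_sub hid hcc]
      simp only [integral_id, intervalIntegral.integral_const, smul_eq_mul]
      ring
    linarith
  have h1 : |∫ t in a..b, (x (t + 1) - x t)| ≤ ∫ t in a..b, |x (t + 1) - x t| :=
    intervalIntegral.abs_integral_le_integral_abs hab
  have h2 : (∫ t in a..b, (x (t + 1) - x t)) = (∫ t in b..(b+1), x t) - ∫ t in a..(a+1), x t := by
    have hc1 : Continuous (fun t : ℝ => x (t + 1)) := hc.comp (by fun_prop)
    rw [intervalIntegral.integral_sub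
      (hc1.intervalIntegrable _ _)
      (hc.intervalIntegrable _ _)]
    rw [intervalIntegral.integral_comp_add_right (fun t => x t) 1]
    have i1 := intervalIntegral.integral_add_adjacent_intervals
      (hc.intervalIntegrable (μ := MeasureTheory.volume) a (a+1)) (hc.intervalIntegrable (a+1) (b+1))
    have i2 := intervalIntegral.integral_add_adjacent_intervals
      (hc.intervalIntegrable (μ := MeasureTheory.volume) a b) (hc.intervalIntegrable b (b+1))
    linarith
  have ka := abs_le.mp (key a)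
  have kb := abs_le.mp (key b)
  rw [h2] at h1
  have h3 := abs_le.mp h1
  have : |x b - x a| ≤ (∫ t in a..b, |x (t + 1) - x t|) + 1 := by
    rw [abs_le]
    constructor
    · linarith [ka.1, ka.2, kb.1, kb.2, h3.1, h3.2]
    · linarith [ka.1, ka.2, kb.1, kb.2, h3.1, h3.2]
  linarith

theorem rec_bounds {x : ℝ → ℝ} (h : Search1 x) {s a b : ℝ} (st : St x s a b) :
    s ≤ 64 / 5 * b ∧ 2 * b + a ≤ s := by
  constructor
  · have key : ∀ d, b < d → s ≤ 64 / 5 * d := by
      intro d hd
      obtain ⟨t, h0, h1, h2⟩ := h.hitm d (st.hb.trans hd)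
      by_contra hcon
      push Not at hcon
      have h3 : t ≤ s := h1.trans hcon.le
      have h4 := st.down t h0 h3
      rw [h2] at h4
      linarith
    by_contra hcon
    push Not at hcon
    have h5 := key ((b + 5 / 64 * s) / 2) (by linarith)
    linarith
  · obtain ⟨t, h0, h1, h2⟩ := st.att
    have h3 := h.lip t 0
    have h4 := h.lip s t
    rw [h2, h.zero, sub_zero, sub_zero, abs_neg, abs_of_pos st.hb, abs_of_nonneg h0] at h3
    rw [h2, st.pos, sub_neg_eq_add, abs_of_pos (by linarith [st.ha, st.hb] : 0 < a + b),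
      abs_of_nonneg (by linarith)] at h4
    linarith

theorem step {x : ℝ → ℝ} (h : Search1 x) {s a b : ℝ} (st : St x s a b) :
    ∃ s' a', St (fun t => -x t) s' b a' ∧ s ≤ s' ∧ a ≤ a' ∧ ∃ r, s ≤ r ∧ r ≤ s' ∧ x r = a' := by
  have hc := h.cont
  have hsa : x s = a := st.pos
  have hb := st.hb
  have ha := st.ha
  have hs0 := st.hs
  -- points of the return set
  have hpt : ∀ d, b < d → ∃ t, s ≤ t ∧ x t = -b ∧ t ≤ 64 / 5 * d := by
    intro d hd
    obtain ⟨t, h0, h1, h2⟩ := h.hitm d (hb.trans hd)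
    have hst : s ≤ t := by
      by_contra hcon
      push Not at hcon
      have := st.down t h0 hcon.le
      linarith
    have hmem : -b ∈ Set.Icc (x t) (x s) := ⟨by linarith, by linarith⟩
    obtain ⟨t0, ht0, hx0⟩ := intermediate_value_Icc' hst hc.continuousOn hmem
    exact ⟨t0, ht0.1, hx0, ht0.2.trans h1⟩
  have hcl : IsClosed {t | s ≤ t ∧ x t = -b} :=
    (isClosed_le continuous_const continuous_id).inter (isClosed_eq hc continuous_const)
  have hne : {t | s ≤ t ∧ x t = -b}.Nonempty := by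
    obtain ⟨t, h1, h2, _⟩ := hpt (b + 1) (by linarith)
    exact ⟨t, h1, h2⟩
  have hbd : BddBelow {t | s ≤ t ∧ x t = -b} := ⟨s, fun t ht => ht.1⟩
  obtain ⟨hss', hxs'⟩ := hcl.csInf_mem hne hbd
  have hinf : ∀ t, s ≤ t → x t = -b → sInf {t | s ≤ t ∧ x t = -b} ≤ t :=
    fun t h1 h2 => csInf_le hbd ⟨h1, h2⟩
  generalize sInf {t | s ≤ t ∧ x t = -b} = s' at hss' hxs' hinf
  have htm : s' ≤ 64 / 5 * b := by
    by_contra hcon
    push Not at hcon
    obtain ⟨t, h1, h2, h3⟩ := hpt ((b + 5 / 64 * s') / 2) (by linarith)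
    have := hinf t h1 h2
    linarith
  have hge : ∀ t, s ≤ t → t ≤ s' → -b ≤ x t := by
    intro t h1 h2
    by_contra hcon
    push Not at hcon
    have hmem : -b ∈ Set.Icc (x t) (x s) := ⟨by linarith, by linarith⟩
    obtain ⟨t0, ht0, hx0⟩ := intermediate_value_Icc' h1 hc.continuousOn hmem
    have h3 := hinf t0 ht0.1 hx0
    have h4 : t0 = t := le_antisymm ht0.2 (h2.trans h3)
    rw [h4] at hx0
    linarith
  obtain ⟨r, hr, hmax⟩ := isCompact_Icc.exists_isMaxOn (Set.nonempty_Icc.mpr hss') hc.continuousOn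
  have hmax' : ∀ t, s ≤ t → t ≤ s' → x t ≤ x r := fun t h1 h2 => hmax ⟨h1, h2⟩
  have har : a ≤ x r := by
    rw [← hsa]
    exact hmax' s le_rfl hss'
  refine ⟨s', x r, ⟨by linarith, hb, by linarith, ?_, ?_, ?_, ?_, htm⟩, hss', har, r, hr.1, hr.2, rfl⟩
  · show -x s' = b
    rw [hxs', neg_neg]
  · intro t h0 h1
    show -x t ≤ b
    rcases le_total t s with h2 | h2
    · linarith [st.down t h0 h2]
    · linarith [hge t h2 h1]
  · intro t h0 h1
    show -x r ≤ -x t
    rcases le_total t s with h2 | h2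
    · linarith [st.up t h0 h2]
    · linarith [hmax' t h2 h1]
  · exact ⟨r, by linarith [hr.1], hr.2, rfl⟩

theorem phase_aux
    (pointwise : ∀ v y : ℝ, 0 ≤ v → y * v - kap y ≤ psi v)
    (int_kap : ∀ μ s s' : ℝ, 0 < μ → 0 < s → s ≤ s' → μ * s' ≤ 5 / 2 →
      ∫ t in s..s', kap (μ * t) / t ≤ PP)
    (variation : ∀ x : ℝ → ℝ, (∀ s t, |x s - x t| ≤ |s - t|) → ∀ a b : ℝ, a ≤ b →
      |x b - x a| - 1 ≤ ∫ t in a..b, |x (t + 1) - x t|)
    {x : ℝ → ℝ} (h : Search1 x) {s a b s' a' r : ℝ} (st : St x s a b)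
    (st' : St (fun t => -x t) s' b a') (hss : s ≤ s') (haa : a ≤ a')
    (hr : s ≤ r) (hr' : r ≤ s') (hxr : x r = a') :
    25 / 128 * ((2 * a' + b - a - 2) / b) - PP ≤ ∫ t in s..s', psi |x (t + 1) - x t| / t := by
  have hb := st.hb
  have hs := st.hs
  obtain ⟨μ, hμ⟩ : ∃ μ : ℝ, μ = 25 / (128 * b) := ⟨_, rfl⟩
  have hμ0 : 0 < μ := by rw [hμ]; positivity
  have hμs : μ * s' ≤ 5 / 2 := by
    have h1 := st'.tm
    calc μ * s' ≤ μ * (64 / 5 * b) := mul_le_mul_of_nonneg_left h1 hμ0.le
      _ = 5 / 2 := by rw [hμ]; field_simp; norm_num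
  have hxc := h.cont
  have hWc : Continuous (fun t => |x (t + 1) - x t|) := by fun_prop
  have hne : ∀ t ∈ Set.uIcc s s', t ≠ 0 := by
    intro t ht
    rw [Set.uIcc_of_le hss] at ht
    exact (lt_of_lt_of_le hs ht.1).ne'
  have hkc : Continuous kap := by
    unfold kap
    fun_prop
  have hpc : Continuous psi := by
    unfold psi
    fun_prop
  have hi1 : IntervalIntegrable (fun t => psi |x (t + 1) - x t| / t) volume s s' := by
    apply ContinuousOn.intervalIntegrable
    apply ContinuousOn.div (hpc.comp hWc).continuousOn continuousOn_id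
    exact hne
  have hi2 : IntervalIntegrable (fun t => kap (μ * t) / t) volume s s' := by
    apply ContinuousOn.intervalIntegrable
    apply ContinuousOn.div (hkc.comp (by fun_prop : Continuous (fun t : ℝ => μ * t))).continuousOn
      continuousOn_id
    exact hne
  have hi3 : IntervalIntegrable (fun t => μ * |x (t + 1) - x t|) volume s s' :=
    (hWc.const_mul μ |>.intervalIntegrable _ _)
  have hmono : ∫ t in s..s', (μ * |x (t + 1) - x t| - kap (μ * t) / t) ≤
      ∫ t in s..s', psi |x (t + 1) - x t| / t := by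
    apply intervalIntegral.integral_mono_on hss (hi3.sub hi2) hi1
    intro t ht
    have ht0 : 0 < t := lt_of_lt_of_le hs ht.1
    have hp := pointwise |x (t + 1) - x t| (μ * t) (abs_nonneg _)
    rw [le_div_iff₀ ht0, sub_mul, div_mul_cancel₀ _ ht0.ne']
    nlinarith
  rw [intervalIntegral.integral_sub hi3 hi2, intervalIntegral.integral_const_mul] at hmono
  have hk := int_kap μ s s' hμ0 hs hss hμs
  have hv1 := variation x h.lip s r hr
  have hv2 := variation x h.lip r s' hr'
  have hadd : (∫ t in s..r, |x (t + 1) - x t|) + ∫ t in r..s', |x (t + 1) - x t| =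
      ∫ t in s..s', |x (t + 1) - x t| :=
    intervalIntegral.integral_add_adjacent_intervals (hWc.intervalIntegrable _ _)
      (hWc.intervalIntegrable _ _)
  have hxs : x s = a := st.pos
  have hxs' : -x s' = b := st'.pos
  have h1 : a' - a ≤ |x r - x s| := by
    rw [hxr, hxs]; exact le_abs_self _
  have h2 : a' + b ≤ |x s' - x r| := by
    rw [hxr]
    have := neg_le_abs (x s' - a')
    linarith
  have hW : 2 * a' + b - a - 2 ≤ ∫ t in s..s', |x (t + 1) - x t| := by
    rw [← hadd]; linarith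
  have hfin : 25 / 128 * ((2 * a' + b - a - 2) / b) = μ * (2 * a' + b - a - 2) := by
    rw [hμ]; field_simp
  rw [hfin]
  have h3 := mul_le_mul_of_nonneg_left hW hμ0.le
  linarith

theorem phase {x : ℝ → ℝ} (h : Search1 x) {s a b s' a' r : ℝ} (st : St x s a b)
    (st' : St (fun t => -x t) s' b a') (hss : s ≤ s') (haa : a ≤ a')
    (hr : s ≤ r) (hr' : r ≤ s') (hxr : x r = a') :
    25 / 128 * ((2 * a' + b - a - 2) / b) - PP ≤ ∫ t in s..s', psi |x (t + 1) - x t| / t :=
  phase_aux pointwise int_kap variation h st st' hss haa hr hr' hxr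

noncomputable def FF_num (g : ℝ) : ℝ := 25 / 128 * (2 * g + 1 - 1 / g) - 52089 / 55552 * Real.log g

theorem FF_num_deriv (g : ℝ) (hg : 0 < g) :
    HasDerivAt FF_num (25 / 64 * (g - 217/100) * (g - 50/217) / g ^ 2) g := by
  unfold FF_num
  have h1 : HasDerivAt (fun g : ℝ => 1 / g) (-(g^2)⁻¹) g := by
    simpa [one_div] using hasDerivAt_inv hg.ne'
  have h2 : HasDerivAt (fun g : ℝ => 2 * g + 1 - 1 / g) (2 * 1 - -(g^2)⁻¹) g :=
    (((hasDerivAt_id g).const_mul 2).add_const 1).sub h1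
  have h3 := (h2.const_mul (25/128)).sub ((Real.hasDerivAt_log hg.ne').const_mul (52089 / 55552))
  refine h3.congr_deriv ?_
  field_simp
  ring

theorem FF_num_cont : ContinuousOn FF_num (Set.Ioi 0) := fun g hg =>
  (FF_num_deriv g hg).continuousAt.continuousWithinAt

theorem numeric (g : ℝ) (h1 : 10 / 59 ≤ g) (h2 : g ≤ 59 / 10) :
    52089 / 55552 * Real.log g ≤ 25 / 128 * (2 * g + 1 - 1 / g) - PP := by
  have hg : 0 < g := by linarith
  have hl52 : Real.log (5/2) ≤ 917/1000 := by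
    rw [Real.log_le_iff_le_exp (by norm_num)]
    refine le_trans ?_ (Real.sum_le_exp_of_nonneg (by norm_num) 8)
    norm_num [Finset.sum_range_succ, Nat.factorial]
  have hl217 : Real.log (217/100) ≤ 775/1000 := by
    rw [Real.log_le_iff_le_exp (by norm_num)]
    refine le_trans ?_ (Real.sum_le_exp_of_nonneg (by norm_num) 8)
    norm_num [Finset.sum_range_succ, Nat.factorial]
  have hl59 : Real.log (10/59) ≤ -17/10 := by
    have h : Real.log (10/59) = -(2 * Real.log 2 + Real.log (59/40)) := by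
      rw [show (10/59:ℝ) = (2^2 * (59/40))⁻¹ by norm_num, Real.log_inv, Real.log_mul (by norm_num) (by norm_num),
        Real.log_pow]
      norm_num
    have h3 : 1 - (59/40:ℝ)⁻¹ ≤ Real.log (59/40) := Real.one_sub_inv_le_log_of_pos (by norm_num)
    have h4 := Real.log_two_gt_d9
    rw [h]
    norm_num at h3 h4 ⊢
    linarith
  have hPP : PP ≤ 5/12 * (917/1000 - 3/8) := by
    unfold PP
    linarith
  have key : 5/12 * (917/1000 - 3/8) ≤ FF_num g := by
    have hg0 : 5/12 * (917/1000 - 3/8) ≤ FF_num (217/100) := by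
      unfold FF_num
      norm_num
      norm_num at hl217
      linarith
    have hg1 : 5/12 * (917/1000 - 3/8) ≤ FF_num (10/59) := by
      unfold FF_num
      norm_num
      norm_num at hl59
      linarith
    by_cases hc : g ≤ 50/217
    · -- increasing on [10/59, 50/217]
      have hmono : MonotoneOn FF_num (Set.Icc (10/59) (50/217)) := by
        apply monotoneOn_of_deriv_nonneg (convex_Icc _ _)
        · exact FF_num_cont.mono (fun x hx => by
            simp only [Set.mem_Icc] at hx; simp only [Set.mem_Ioi]; linarith [hx.1])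
        · intro x hx
          rw [interior_Icc] at hx
          have hx0 : 0 < x := by linarith [hx.1]
          exact (FF_num_deriv x hx0).differentiableAt.differentiableWithinAt
        · intro x hx
          rw [interior_Icc] at hx
          have hx0 : 0 < x := by linarith [hx.1]
          rw [(FF_num_deriv x hx0).deriv]
          apply div_nonneg _ (by positivity)
          have e1 : 0 ≤ 217/100 - x := by linarith [hx.2]
          have e2 : 0 ≤ 50/217 - x := by linarith [hx.2]
          nlinarith [mul_nonneg e1 e2]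
      exact hg1.trans (hmono ⟨le_rfl, by norm_num⟩ ⟨h1, hc⟩ h1)
    · push Not at hc
      by_cases hd : g ≤ 217/100
      · have hanti : AntitoneOn FF_num (Set.Icc (50/217) (217/100)) := by
          apply antitoneOn_of_deriv_nonpos (convex_Icc _ _)
          · exact FF_num_cont.mono (fun x hx => by
              simp only [Set.mem_Icc] at hx; simp only [Set.mem_Ioi]; linarith [hx.1])
          · intro x hx
            rw [interior_Icc] at hx
            have hx0 : 0 < x := by linarith [hx.1]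
            exact (FF_num_deriv x hx0).differentiableAt.differentiableWithinAt
          · intro x hx
            rw [interior_Icc] at hx
            have hx0 : 0 < x := by linarith [hx.1]
            rw [(FF_num_deriv x hx0).deriv]
            apply div_nonpos_of_nonpos_of_nonneg _ (by positivity)
            have e1 : 0 ≤ 217/100 - x := by linarith [hx.2]
            have e2 : 0 ≤ x - 50/217 := by linarith [hx.1]
            nlinarith [mul_nonneg e1 e2]
        exact hg0.trans (hanti ⟨hc.le, hd⟩ ⟨by norm_num, le_rfl⟩ hd)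
      · push Not at hd
        have hmono : MonotoneOn FF_num (Set.Ici (217/100)) := by
          apply monotoneOn_of_deriv_nonneg (convex_Ici _)
          · exact FF_num_cont.mono (fun x hx => by
              simp only [Set.mem_Ici] at hx; simp only [Set.mem_Ioi]; linarith [hx])
          · intro x hx
            rw [interior_Ici] at hx
            have hx0 : 0 < x := by simp only [Set.mem_Ioi] at hx; linarith [hx]
            exact (FF_num_deriv x hx0).differentiableAt.differentiableWithinAt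
          · intro x hx
            rw [interior_Ici] at hx
            simp only [Set.mem_Ioi] at hx
            have hx0 : 0 < x := by linarith [hx]
            rw [(FF_num_deriv x hx0).deriv]
            apply div_nonneg _ (by positivity)
            have e1 : 0 ≤ x - 217/100 := by linarith [hx]
            have e2 : 0 ≤ x - 50/217 := by linarith [hx]
            nlinarith [mul_nonneg e1 e2]
        exact hg0.trans (hmono (Set.mem_Ici.2 le_rfl) (Set.mem_Ici.2 hd.le) hd.le)
  unfold FF_num at key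
  linarith

theorem mi_psi_nonneg (v : ℝ) (hv : 0 ≤ v) : 0 ≤ psi v := by
  unfold psi; positivity

theorem mi_contOn {x : ℝ → ℝ} (h : Search1 x) (p q : ℝ) (hp : 0 < p) (hpq : p ≤ q) :
    IntervalIntegrable (fun t => psi |x (t + 1) - x t| / t) volume p q := by
  apply ContinuousOn.intervalIntegrable
  rw [uIcc_of_le hpq]
  have hx := h.cont
  have h1 : Continuous (fun t => psi |x (t + 1) - x t|) := by
    unfold psi
    fun_prop
  apply h1.continuousOn.div continuousOn_id
  intro t ht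
  exact (lt_of_lt_of_le hp ht.1).ne'

theorem mi_nonneg {x : ℝ → ℝ} (p q : ℝ) (hp : 0 < p) (hpq : p ≤ q) :
    0 ≤ ∫ t in p..q, psi |x (t + 1) - x t| / t := by
  apply intervalIntegral.integral_nonneg hpq
  intro t ht
  exact div_nonneg (mi_psi_nonneg _ (abs_nonneg _)) (hp.le.trans ht.1)

theorem mi_base (c m a b s T : ℝ) (hc : 0 ≤ c) (hm : 0 ≤ m) (ha : 0 < a) (hb : 0 < b) (hs : 0 < s)
    (hT : 0 < T) (hTb : T ≤ 64 / 5 * b) :
    c * Real.log T - c * Real.log b - m * (a / b) - 37 / s - c * Real.log (64 / 5) ≤ 0 := by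
  have h1 : Real.log T ≤ Real.log (64 / 5) + Real.log b := by
    rw [← Real.log_mul (by norm_num) hb.ne']
    exact Real.log_le_log hT hTb
  have h2 := mul_le_mul_of_nonneg_left h1 hc
  have h3 : 0 ≤ m * (a / b) := by positivity
  have h4 : 0 ≤ 37 / s := by positivity
  linarith

theorem mi_step (c m PQ a b s s' a' L J1 J2 LR : ℝ) (hm : m = 25 / 128) (ha : 0 < a) (hb : 0 < b) (hs : 0 < s)
    (ha' : 0 < a') (hsb : s ≤ 64 / 5 * b) (hs' : s * (37 / 32) ≤ s')
    (hnum : c * Real.log (a' / b) ≤ m * (2 * (a' / b) + 1 - 1 / (a' / b)) - PQ)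
    (hph : m * ((2 * a' + b - a - 2) / b) - PQ ≤ J1)
    (hih : c * L - c * Real.log a' - m * (b / a') - 37 / s' - c * LR ≤ J2) :
    c * L - c * Real.log b - m * (a / b) - 37 / s - c * LR ≤ J1 + J2 := by
  rw [Real.log_div ha'.ne' hb.ne'] at hnum
  have e1 : (2 * a' + b - a - 2) / b = 2 * (a' / b) + 1 - a / b - 2 / b := by
    field_simp
  have e2 : 1 / (a' / b) = b / a' := by rw [one_div, inv_div]
  rw [e1] at hph
  rw [e2] at hnum
  have h1 : m * (2 / b) ≤ 5 / s := by
    rw [hm, le_div_iff₀ hs]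
    have : 25 / 128 * (2 / b) * s = 25 / 64 * (s / b) := by ring
    rw [this]
    have h2 : s / b ≤ 64 / 5 := by rw [div_le_iff₀ hb]; exact hsb
    linarith
  have hs'0 : 0 < s' := lt_of_lt_of_le (by positivity) hs'
  have h3 : 37 / s' ≤ 32 / s := by
    rw [div_le_div_iff₀ hs'0 hs]
    linarith
  have h4 : 37 / s - 32 / s = 5 / s := by rw [← sub_div]; norm_num
  have e3 : m * (2 * (a' / b) + 1 - a / b - 2 / b) = m * (2 * (a' / b) + 1 - b / a') + m * (b / a') - m * (a / b) - m * (2 / b) := by ring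
  rw [e3] at hph
  linarith

theorem main_ind_aux
    (rec_bounds : ∀ {x : ℝ → ℝ}, Search1 x → ∀ {s a b : ℝ}, St x s a b →
      s ≤ 64 / 5 * b ∧ 2 * b + a ≤ s)
    (step : ∀ {x : ℝ → ℝ}, Search1 x → ∀ {s a b : ℝ}, St x s a b →
      ∃ s' a', St (fun t => -x t) s' b a' ∧ s ≤ s' ∧ a ≤ a' ∧ ∃ r, s ≤ r ∧ r ≤ s' ∧ x r = a')
    (phase : ∀ {x : ℝ → ℝ}, Search1 x → ∀ {s a b s' a' r : ℝ}, St x s a b →
      St (fun t => -x t) s' b a' → s ≤ s' → a ≤ a' → s ≤ r → r ≤ s' → x r = a' →
      25 / 128 * ((2 * a' + b - a - 2) / b) - PP ≤ ∫ t in s..s', psi |x (t + 1) - x t| / t)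
    (numeric : ∀ g : ℝ, 10 / 59 ≤ g → g ≤ 59 / 10 →
      52089 / 55552 * Real.log g ≤ 25 / 128 * (2 * g + 1 - 1 / g) - PP)
    (N : ℕ) : ∀ (x : ℝ → ℝ), Search1 x → ∀ (s a b T : ℝ), St x s a b → s ≤ T →
    T ≤ s * (37 / 32) ^ N →
    52089 / 55552 * Real.log T - 52089 / 55552 * Real.log b - 25 / 128 * (a / b) - 37 / s
      - 52089 / 55552 * Real.log (64 / 5) ≤ ∫ t in s..T, psi |x (t + 1) - x t| / t := by
  induction N with
  | zero =>
    intro x hx s a b T hst hsT hTN
    rw [pow_zero, mul_one] at hTN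
    have hTpos : 0 < T := lt_of_lt_of_le hst.hs hsT
    have hrb := rec_bounds hx hst
    have h1 := mi_base (52089 / 55552) (25 / 128) a b s T (by norm_num) (by norm_num) hst.ha hst.hb hst.hs hTpos
      (hTN.trans hrb.1)
    exact h1.trans (mi_nonneg s T hst.hs hsT)
  | succ N ih =>
    intro x hx s a b T hst hsT hTN
    have hTpos : 0 < T := lt_of_lt_of_le hst.hs hsT
    obtain ⟨s', a', hst', hss', haa', r, hsr, hrs', hxr⟩ := step hx hst
    have hrb := rec_bounds hx hst
    have hrb' := rec_bounds hx.neg hst'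
    by_cases hTs : T ≤ s'
    · have h1 := mi_base (52089 / 55552) (25 / 128) a b s T (by norm_num) (by norm_num) hst.ha hst.hb hst.hs hTpos
        (hTs.trans hst'.tm)
      exact h1.trans (mi_nonneg s T hst.hs hsT)
    · push Not at hTs
      have hxs' : x s' = -b := by
        have := hst'.pos
        linarith
      have hs'1 : s * (37 / 32) ≤ s' := by
        have h1 := hx.lip s' s
        rw [hxs', hst.pos, abs_of_nonneg (sub_nonneg.2 hss')] at h1
        have h2 : a + b ≤ |-b - a| := by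
          have := neg_abs_le (-b - a)
          linarith
        have h3 := hst.tm
        have h4 := hrb.1
        linarith
      have hph := phase hx hst hst' hss' haa' hsr hrs' hxr
      have hIH := ih (fun t => -x t) hx.neg s' b a' T hst' hTs.le (by
        rw [pow_succ] at hTN
        have h2 : s * ((37 / 32) ^ N * (37 / 32)) = (s * (37 / 32)) * (37 / 32) ^ N := by ring
        rw [h2] at hTN
        exact hTN.trans (mul_le_mul_of_nonneg_right hs'1 (by positivity)))
      have hcongr : (∫ t in s'..T, psi |(fun t => -x t) (t + 1) - (fun t => -x t) t| / t)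
          = ∫ t in s'..T, psi |x (t + 1) - x t| / t := by
        congr 1
        funext t
        rw [show -x (t + 1) - -x t = -(x (t + 1) - x t) by ring, abs_neg]
      rw [hcongr] at hIH
      rw [← intervalIntegral.integral_add_adjacent_intervals (mi_contOn hx s s' hst.hs hss')
        (mi_contOn hx s' T hst'.hs hTs.le)]
      have ha'0 : 0 < a' := hst'.hb
      have hnum := numeric (a' / b) (by
        rw [le_div_iff₀ hst.hb]
        have h1 := hrb.2
        have h2 := hst.tm
        linarith) (by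
        rw [div_le_iff₀ hst.hb]
        have h1 := hrb'.2
        have h2 := hst'.tm
        linarith)
      exact mi_step _ _ _ a b s s' a' (Real.log T) _ _ _ rfl hst.ha hst.hb hst.hs ha'0 hrb.1 hs'1 hnum hph hIH

/-- main induction over the phases of the one-dimensional search -/
theorem main_ind (N : ℕ) : ∀ (x : ℝ → ℝ), Search1 x → ∀ (s a b T : ℝ), St x s a b → s ≤ T →
    T ≤ s * (37 / 32) ^ N →
    52089 / 55552 * Real.log T - 52089 / 55552 * Real.log b - 25 / 128 * (a / b) - 37 / s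
      - 52089 / 55552 * Real.log (64 / 5) ≤ ∫ t in s..T, psi |x (t + 1) - x t| / t :=
  main_ind_aux rec_bounds step phase numeric N

theorem init {x : ℝ → ℝ} (h : Search1 x) :
    ∃ s b, St x s 1 b ∧ 1 ≤ s ∧ s ≤ 64 / 5 := by
  have hc := h.cont
  obtain ⟨t₁, h1, h2, h3⟩ := h.hitp 1 one_pos
  have hne : ({t | 0 ≤ t ∧ x t = 1} : Set ℝ).Nonempty := ⟨t₁, h1, h3⟩
  have hbd : BddBelow ({t | 0 ≤ t ∧ x t = 1} : Set ℝ) := ⟨0, fun t ht => ht.1⟩
  have hcl : IsClosed ({t | 0 ≤ t ∧ x t = 1} : Set ℝ) :=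
    (isClosed_le continuous_const continuous_id).inter (isClosed_eq hc continuous_const)
  have hs := hcl.csInf_mem hne hbd
  set s := sInf {t | 0 ≤ t ∧ x t = 1} with hsdef
  have hle : ∀ t, 0 ≤ t → x t = 1 → s ≤ t := fun t ht hx => csInf_le hbd ⟨ht, hx⟩
  have hs1 : 1 ≤ s := by
    have := h.lip s 0
    rw [h.zero, hs.2, sub_zero, sub_zero, abs_one, abs_of_nonneg hs.1] at this
    exact this
  have hs2 : s ≤ 64 / 5 := by
    have := hle t₁ h1 h3
    linarith
  have hup : ∀ t, 0 ≤ t → t ≤ s → x t ≤ 1 := by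
    intro t ht hts
    by_contra hcon
    push Not at hcon
    have hivt := intermediate_value_Icc ht hc.continuousOn
    have hmem : (1 : ℝ) ∈ Icc (x 0) (x t) := ⟨by rw [h.zero]; norm_num, hcon.le⟩
    obtain ⟨u, hu, hxu⟩ := hivt hmem
    have h4 := hle u hu.1 hxu
    have h5 : u = t := le_antisymm hu.2 (hts.trans h4)
    rw [h5] at hxu
    linarith
  obtain ⟨t₀, ht₀, hmin⟩ := isCompact_Icc.exists_isMinOn
    (nonempty_Icc.2 (by linarith : (0 : ℝ) ≤ s)) hc.continuousOn
  have hmin' : ∀ t, 0 ≤ t → t ≤ s → x t₀ ≤ x t := fun t h1 h2 => hmin ⟨h1, h2⟩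
  obtain ⟨t₂, h6, h7, h8⟩ := h.hitm (1 / 20) (by norm_num)
  have h9 := hmin' t₂ h6 (by linarith)
  refine ⟨s, -x t₀, ⟨by linarith, one_pos, by linarith, hs.2, hup, ?_, ?_, by linarith⟩, hs1, hs2⟩
  · intro t ht hts
    rw [neg_neg]
    exact hmin' t ht hts
  · exact ⟨t₀, ht₀.1, ht₀.2, by rw [neg_neg]⟩

theorem oneD_aux
    (init : ∀ {x : ℝ → ℝ}, Search1 x → ∃ s b, St x s 1 b ∧ 1 ≤ s ∧ s ≤ 64 / 5)
    (rec_bounds : ∀ {x : ℝ → ℝ}, Search1 x → ∀ {s a b : ℝ}, St x s a b →
      s ≤ 64 / 5 * b ∧ 2 * b + a ≤ s)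
    (main_ind : ∀ (N : ℕ) (x : ℝ → ℝ), Search1 x → ∀ (s a b T : ℝ), St x s a b → s ≤ T →
      T ≤ s * (37 / 32) ^ N →
      52089 / 55552 * Real.log T - 52089 / 55552 * Real.log b - 25 / 128 * (a / b) - 37 / s
        - 52089 / 55552 * Real.log (64 / 5) ≤ ∫ t in s..T, psi |x (t + 1) - x t| / t) :
    ∃ C : ℝ, ∀ x : ℝ → ℝ, Search1 x → ∀ T : ℝ, 1 ≤ T →
    52089 / 55552 * Real.log T - C ≤ ∫ t in (1:ℝ)..T, psi |x (t + 1) - x t| / t := by
  refine ⟨100, ?_⟩
  intro x hx T hT
  obtain ⟨s, b, hst, hs1, hs2⟩ := init hx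
  obtain ⟨hb1, hb2⟩ := rec_bounds hx hst
  have hb5 : 5 / 64 ≤ b := by linarith
  have hb64 : b ≤ 64 / 5 := by linarith
  have hbpos : 0 < b := hst.hb
  have hl64 : Real.log (64 / 5) ≤ 59 / 5 := by
    have := Real.log_le_sub_one_of_pos (show (0:ℝ) < 64 / 5 by norm_num)
    linarith
  have hl64p : 0 ≤ Real.log (64 / 5) := Real.log_nonneg (by norm_num)
  have hnn : ∀ t : ℝ, 0 < t → 0 ≤ psi |x (t + 1) - x t| / t := by
    intro t ht
    apply div_nonneg _ ht.le
    unfold psi
    positivity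
  have hcont : ContinuousOn (fun t : ℝ => psi |x (t + 1) - x t| / t) (Ioi 0) := by
    have hxc := hx.cont
    refine ContinuousOn.div ?_ continuousOn_id (fun t ht => ne_of_gt ht)
    apply Continuous.continuousOn
    unfold psi
    fun_prop
  have hint : ∀ u v : ℝ, 0 < u → 0 < v →
      IntervalIntegrable (fun t : ℝ => psi |x (t + 1) - x t| / t) volume u v := by
    intro u v hu hv
    apply ContinuousOn.intervalIntegrable
    apply hcont.mono
    intro t ht
    have := ht.1
    exact lt_of_lt_of_le (lt_min hu hv) this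
  by_cases hTs : T < s
  · have h1 : 0 ≤ ∫ t in (1:ℝ)..T, psi |x (t + 1) - x t| / t := by
      apply intervalIntegral.integral_nonneg hT
      intro u hu
      exact hnn u (by linarith [hu.1])
    have h2 : Real.log T ≤ Real.log (64 / 5) := Real.log_le_log (by linarith) (by linarith)
    linarith
  · push Not at hTs
    obtain ⟨N, hN⟩ := pow_unbounded_of_one_lt (T / s) (show (1:ℝ) < 37 / 32 by norm_num)
    have hspos : 0 < s := by linarith
    have hN' : T ≤ s * (37 / 32) ^ N := by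
      rw [div_lt_iff₀ hspos] at hN
      linarith
    have h1 := main_ind N x hx s 1 b T hst hTs hN'
    have h2 : (∫ t in (1:ℝ)..T, psi |x (t + 1) - x t| / t) =
        (∫ t in (1:ℝ)..s, psi |x (t + 1) - x t| / t) + ∫ t in s..T, psi |x (t + 1) - x t| / t :=
      (intervalIntegral.integral_add_adjacent_intervals (hint 1 s one_pos hspos)
        (hint s T hspos (by linarith))).symm
    have h3 : 0 ≤ ∫ t in (1:ℝ)..s, psi |x (t + 1) - x t| / t := by
      apply intervalIntegral.integral_nonneg hs1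
      intro u hu
      exact hnn u (by linarith [hu.1])
    have h4 : Real.log b ≤ Real.log (64 / 5) := Real.log_le_log hbpos hb64
    have h5 : 1 / b ≤ 64 / 5 := by
      rw [div_le_iff₀ hbpos]
      linarith
    have h6 : 37 / s ≤ 37 := by
      rw [div_le_iff₀ hspos]
      linarith
    linarith

/-- the one-dimensional estimate: a lower bound for the logarithmic average of the cost -/
theorem oneD : ∃ C : ℝ, ∀ x : ℝ → ℝ, Search1 x → ∀ T : ℝ, 1 ≤ T →
    52089 / 55552 * Real.log T - C ≤ ∫ t in (1:ℝ)..T, psi |x (t + 1) - x t| / t :=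
  oneD_aux init rec_bounds main_ind

theorem dir_int_abs_cos : ∫ θ in (0:ℝ)..(2 * π), |Real.cos θ| = 4 := by
  have hper : Function.Periodic (fun θ : ℝ => |Real.cos θ|) (2 * π) := by
    intro θ
    show |Real.cos (θ + 2 * π)| = |Real.cos θ|
    rw [Real.cos_add_two_pi]
  have h1 := hper.intervalIntegral_add_eq 0 (-(π / 2))
  rw [zero_add] at h1
  rw [h1]
  have hc : Continuous (fun θ : ℝ => |Real.cos θ|) := Real.continuous_cos.abs
  rw [← intervalIntegral.integral_add_adjacent_intervals (b := π / 2)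
    (hc.intervalIntegrable _ _) (hc.intervalIntegrable _ _)]
  have e1 : ∫ θ in (-(π / 2))..(π / 2), |Real.cos θ| = 2 := by
    have h2 : ∫ θ in (-(π / 2))..(π / 2), |Real.cos θ| =
        ∫ θ in (-(π / 2))..(π / 2), Real.cos θ := by
      apply intervalIntegral.integral_congr
      intro θ hθ
      rw [Set.uIcc_of_le (by linarith [Real.pi_pos])] at hθ
      exact abs_of_nonneg (Real.cos_nonneg_of_mem_Icc hθ)
    rw [h2, integral_cos, Real.sin_neg, Real.sin_pi_div_two]
    norm_num
  have e2 : ∫ θ in (π / 2)..(-(π / 2) + 2 * π), |Real.cos θ| = 2 := by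
    have h2 : ∫ θ in (π / 2)..(-(π / 2) + 2 * π), |Real.cos θ| =
        ∫ θ in (π / 2)..(-(π / 2) + 2 * π), -Real.cos θ := by
      apply intervalIntegral.integral_congr
      intro θ hθ
      rw [Set.uIcc_of_le (by linarith [Real.pi_pos])] at hθ
      exact abs_of_nonpos (Real.cos_nonpos_of_pi_div_two_le_of_le hθ.1 (by linarith [hθ.2]))
    rw [h2, intervalIntegral.integral_neg, integral_cos, Real.sin_add_two_pi, Real.sin_neg,
      Real.sin_pi_div_two]
    norm_num
  rw [e1, e2]
  norm_num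

theorem dir_int (w₀ w₁ : ℝ) (hw : w₀ ^ 2 + w₁ ^ 2 ≤ 1) :
    ∫ θ in (0:ℝ)..(2 * π), psi |Real.cos θ * w₀ + Real.sin θ * w₁| ≤ 4 + 3 / 5 * π := by
  obtain ⟨r, p, hr0, hr1, h0, h1⟩ : ∃ r p : ℝ, 0 ≤ r ∧ r ≤ 1 ∧ w₀ = r * Real.cos p ∧
      w₁ = r * Real.sin p := by
    refine ⟨‖(⟨w₀, w₁⟩ : ℂ)‖, Complex.arg ⟨w₀, w₁⟩, norm_nonneg _, ?_, ?_, ?_⟩
    · rw [← sq_le_one_iff₀ (norm_nonneg _), Complex.sq_norm, Complex.normSq_mk]
      nlinarith
    · rw [Complex.norm_mul_cos_arg]
    · rw [Complex.norm_mul_sin_arg]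
  have hcont : Continuous (fun θ : ℝ => psi |Real.cos θ * w₀ + Real.sin θ * w₁|) := by
    unfold psi
    fun_prop
  have hg : Continuous (fun θ : ℝ => |Real.cos θ| + 3 / 5 * Real.cos θ ^ 2) := by fun_prop
  have hg' : Continuous (fun θ : ℝ => |Real.cos (θ - p)| + 3 / 5 * Real.cos (θ - p) ^ 2) := by
    fun_prop
  have hle : ∫ θ in (0:ℝ)..(2 * π), psi |Real.cos θ * w₀ + Real.sin θ * w₁| ≤
      ∫ θ in (0:ℝ)..(2 * π), (|Real.cos (θ - p)| + 3 / 5 * Real.cos (θ - p) ^ 2) := by
    apply intervalIntegral.integral_mono_on (by linarith [Real.pi_pos])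
      (hcont.intervalIntegrable _ _) (hg'.intervalIntegrable _ _)
    intro θ _
    have h2 : Real.cos θ * w₀ + Real.sin θ * w₁ = r * Real.cos (θ - p) := by
      rw [h0, h1, Real.cos_sub]
      ring
    rw [h2, abs_mul, abs_of_nonneg hr0]
    unfold psi
    have h3 : r * |Real.cos (θ - p)| ≤ |Real.cos (θ - p)| :=
      mul_le_of_le_one_left (abs_nonneg _) hr1
    have h4 : (r * |Real.cos (θ - p)|) ^ 2 ≤ Real.cos (θ - p) ^ 2 := by
      rw [← sq_abs (Real.cos (θ - p))]
      exact pow_le_pow_left₀ (mul_nonneg hr0 (abs_nonneg _)) h3 2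
    linarith
  refine hle.trans ?_
  have hper : Function.Periodic (fun θ : ℝ => |Real.cos θ| + 3 / 5 * Real.cos θ ^ 2) (2 * π) := by
    intro θ
    show |Real.cos (θ + 2 * π)| + 3 / 5 * Real.cos (θ + 2 * π) ^ 2 = _
    rw [Real.cos_add_two_pi]
  have e1 : ∫ θ in (0:ℝ)..(2 * π), (|Real.cos (θ - p)| + 3 / 5 * Real.cos (θ - p) ^ 2) =
      ∫ θ in (0:ℝ)..(2 * π), (|Real.cos θ| + 3 / 5 * Real.cos θ ^ 2) := by
    rw [intervalIntegral.integral_comp_sub_right
      (fun θ => |Real.cos θ| + 3 / 5 * Real.cos θ ^ 2) p]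
    have h2 := hper.intervalIntegral_add_eq (0 - p) 0
    rw [zero_add] at h2
    rw [← h2]
    congr 1
    ring
  rw [e1, intervalIntegral.integral_add (Real.continuous_cos.abs.intervalIntegrable _ _)
    ((by fun_prop : Continuous (fun θ : ℝ => 3 / 5 * Real.cos θ ^ 2)).intervalIntegrable _ _),
    dir_int_abs_cos, intervalIntegral.integral_const_mul, integral_cos_sq]
  simp

noncomputable def Gnp (y₀ y₁ : ℝ → ℝ) (t θ : ℝ) : ℝ :=
  psi |Real.cos θ * (y₀ (t + 1) - y₀ t) + Real.sin θ * (y₁ (t + 1) - y₁ t)| / max t 1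

theorem Gnp_cont {y₀ y₁ : ℝ → ℝ} (hc0 : Continuous y₀) (hc1 : Continuous y₁) :
    Continuous (fun p : ℝ × ℝ => Gnp y₀ y₁ p.1 p.2) := by
  have hmax : ∀ p : ℝ × ℝ, max p.1 1 ≠ 0 := fun p => by
    have : (1:ℝ) ≤ max p.1 1 := le_max_right _ _
    linarith
  unfold Gnp psi
  refine Continuous.div ?_ (by fun_prop) hmax
  fun_prop

theorem Gnp_swap {y₀ y₁ : ℝ → ℝ} (hc0 : Continuous y₀) (hc1 : Continuous y₁) (T : ℝ) :
    ∫ t in (1:ℝ)..T, (∫ θ in (0:ℝ)..(2 * π), Gnp y₀ y₁ t θ)
        = ∫ θ in (0:ℝ)..(2 * π), (∫ t in (1:ℝ)..T, Gnp y₀ y₁ t θ) := by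
  apply MeasureTheory.intervalIntegral_intervalIntegral_swap
  have hGc : Continuous (Function.uncurry (Gnp y₀ y₁)) := Gnp_cont hc0 hc1
  have h1 : IntegrableOn (Function.uncurry (Gnp y₀ y₁)) (Icc (min 1 T) (max 1 T) ×ˢ
      Icc (min 0 (2 * π)) (max 0 (2 * π))) volume :=
    hGc.continuousOn.integrableOn_compact (isCompact_Icc.prod isCompact_Icc)
  refine h1.mono_set ?_
  exact Set.prod_mono Ioc_subset_Icc_self Ioc_subset_Icc_self

theorem Gnp_low (C : ℝ) (hC : ∀ x : ℝ → ℝ, Search1 x → ∀ T : ℝ, 1 ≤ T →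
      52089 / 55552 * Real.log T - C ≤ ∫ t in (1:ℝ)..T, psi |x (t + 1) - x t| / t)
    {y₀ y₁ : ℝ → ℝ} (hc0 : Continuous y₀) (hc1 : Continuous y₁)
    (hS : ∀ θ : ℝ, Search1 (fun t => Real.cos θ * y₀ t + Real.sin θ * y₁ t)) (T : ℝ)
    (hT : 1 ≤ T) : 2 * π * (52089 / 55552 * Real.log T - C)
        ≤ ∫ θ in (0:ℝ)..(2 * π), (∫ t in (1:ℝ)..T, Gnp y₀ y₁ t θ) := by
  have hpi := Real.pi_pos
  have e : 2 * π * (52089 / 55552 * Real.log T - C)
      = ∫ θ in (0:ℝ)..(2 * π), (52089 / 55552 * Real.log T - C) := by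
    rw [intervalIntegral.integral_const, sub_zero, smul_eq_mul]
  rw [e]
  have hcc : Continuous (Function.uncurry (fun θ t => Gnp y₀ y₁ t θ)) := by
    have hmax : ∀ p : ℝ × ℝ, max p.2 1 ≠ 0 := fun p => by
      have : (1:ℝ) ≤ max p.2 1 := le_max_right _ _
      linarith
    unfold Function.uncurry Gnp psi
    refine Continuous.div ?_ (by fun_prop) hmax
    fun_prop
  have hcp : Continuous (fun θ : ℝ => ∫ t in (1:ℝ)..T, Gnp y₀ y₁ t θ) :=
    intervalIntegral.continuous_parametric_intervalIntegral_of_continuous'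
      (f := fun θ t => Gnp y₀ y₁ t θ) hcc 1 T
  refine intervalIntegral.integral_mono_on (by positivity)
    (continuous_const.intervalIntegrable _ _) (hcp.intervalIntegrable _ _) ?_
  intro θ hθ
  refine (hC _ (hS θ) T hT).trans_eq ?_
  apply intervalIntegral.integral_congr
  intro t ht
  rw [uIcc_of_le hT] at ht
  simp only [Gnp]
  rw [max_eq_left ht.1]
  congr 3
  ring

theorem Gnp_up
    (dir_int : ∀ w₀ w₁ : ℝ, w₀ ^ 2 + w₁ ^ 2 ≤ 1 →
      ∫ θ in (0:ℝ)..(2 * π), psi |Real.cos θ * w₀ + Real.sin θ * w₁| ≤ 4 + 3 / 5 * π)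
    {y₀ y₁ : ℝ → ℝ} (hc0 : Continuous y₀) (hc1 : Continuous y₁)
    (hlip : ∀ s t, (y₀ s - y₀ t) ^ 2 + (y₁ s - y₁ t) ^ 2 ≤ (s - t) ^ 2) (T : ℝ)
    (hT : 1 ≤ T) : ∫ t in (1:ℝ)..T, (∫ θ in (0:ℝ)..(2 * π), Gnp y₀ y₁ t θ)
        ≤ (4 + 3 / 5 * π) * Real.log T := by
  have e : (4 + 3 / 5 * π) * Real.log T = ∫ t in (1:ℝ)..T, (4 + 3 / 5 * π) * t⁻¹ := by
    rw [intervalIntegral.integral_const_mul, integral_inv_of_pos one_pos (by linarith), div_one]
  rw [e]
  have hcp : Continuous (fun t : ℝ => ∫ θ in (0:ℝ)..(2 * π), Gnp y₀ y₁ t θ) :=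
    intervalIntegral.continuous_parametric_intervalIntegral_of_continuous'
      (f := fun t θ => Gnp y₀ y₁ t θ) (Gnp_cont hc0 hc1) 0 (2 * π)
  refine intervalIntegral.integral_mono_on hT (hcp.intervalIntegrable _ _) ?_ ?_
  · apply ContinuousOn.intervalIntegrable
    rw [uIcc_of_le hT]
    refine continuousOn_const.mul (continuousOn_inv₀.mono ?_)
    intro t ht h0
    have := ht.1
    simp only [mem_singleton_iff] at h0
    linarith
  · intro t ht
    have ht1 : 1 ≤ t := ht.1
    simp only [Gnp]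
    rw [max_eq_left ht1, intervalIntegral.integral_div, div_eq_mul_inv]
    refine mul_le_mul_of_nonneg_right ?_ (by positivity)
    apply dir_int
    have := hlip (t + 1) t
    simpa using this

theorem no_path_aux
    (oneD : ∃ C : ℝ, ∀ x : ℝ → ℝ, Search1 x → ∀ T : ℝ, 1 ≤ T →
      52089 / 55552 * Real.log T - C ≤ ∫ t in (1:ℝ)..T, psi |x (t + 1) - x t| / t)
    (dir_int : ∀ w₀ w₁ : ℝ, w₀ ^ 2 + w₁ ^ 2 ≤ 1 →
      ∫ θ in (0:ℝ)..(2 * π), psi |Real.cos θ * w₀ + Real.sin θ * w₁| ≤ 4 + 3 / 5 * π)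
    (y₀ y₁ : ℝ → ℝ)
    (hlip : ∀ s t, (y₀ s - y₀ t) ^ 2 + (y₁ s - y₁ t) ^ 2 ≤ (s - t) ^ 2)
    (hS : ∀ θ : ℝ, Search1 (fun t => Real.cos θ * y₀ t + Real.sin θ * y₁ t)) : False := by
  obtain ⟨C, hC⟩ := oneD
  have hc0 : Continuous y₀ := by
    have h := (hS 0).cont
    simpa using h
  have hc1 : Continuous y₁ := by
    have h := (hS (π / 2)).cont
    simpa using h
  have key : ∀ T : ℝ, 1 ≤ T →
      2 * π * (52089 / 55552 * Real.log T - C) ≤ (4 + 3 / 5 * π) * Real.log T := by
    intro T hT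
    have h1 := Gnp_low C hC hc0 hc1 hS T hT
    have h2 := Gnp_up dir_int hc0 hc1 hlip T hT
    rw [Gnp_swap hc0 hc1 T] at h2
    exact h1.trans h2
  have hpi2 : 3.14 < π := Real.pi_gt_d2
  have hδpos : 0 < 2 * π * (52089 / 55552) - 4 - 3 / 5 * π := by
    linarith
  obtain ⟨N, hN⟩ := exists_nat_gt (2 * π * C / (2 * π * (52089 / 55552) - 4 - 3 / 5 * π))
  have h1 := key (Real.exp N) (Real.one_le_exp (by positivity))
  rw [Real.log_exp] at h1
  rw [div_lt_iff₀ hδpos] at hN
  nlinarith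

theorem no_path (y₀ y₁ : ℝ → ℝ)
    (hlip : ∀ s t, (y₀ s - y₀ t) ^ 2 + (y₁ s - y₁ t) ^ 2 ≤ (s - t) ^ 2)
    (hS : ∀ θ : ℝ, Search1 (fun t => Real.cos θ * y₀ t + Real.sin θ * y₁ t)) : False :=
  no_path_aux oneD dir_int y₀ y₁ hlip hS

/-- every line `{z : ⟪(cos θ, sin θ), z⟫ = d}`, `d > 0`, is a shore at distance `d` -/
theorem line_shore (θ d : ℝ) (hd : 0 < d) : ∃ L : AffineSubspace ℝ Plane, IsShore L ∧
    shoreDist L = d ∧ ∀ z : Plane, z ∈ L ↔ Real.cos θ * z 0 + Real.sin θ * z 1 = d := by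
  have hsc := Real.sin_sq_add_cos_sq θ
  set v : Plane := !₂[-Real.sin θ, Real.cos θ] with hv
  set p : Plane := !₂[d * Real.cos θ, d * Real.sin θ] with hp
  have hv0 : v 0 = -Real.sin θ := rfl
  have hv1 : v 1 = Real.cos θ := rfl
  have hp0 : p 0 = d * Real.cos θ := rfl
  have hp1 : p 1 = d * Real.sin θ := rfl
  have hnorm : ∀ z : Plane, ‖z‖ ^ 2 = z 0 ^ 2 + z 1 ^ 2 := by
    intro z
    rw [EuclideanSpace.norm_eq, Real.sq_sqrt (by positivity), Fin.sum_univ_two]
    simp only [Real.norm_eq_abs, sq_abs]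
  have hmem : ∀ z : Plane, z ∈ AffineSubspace.mk' p (ℝ ∙ v) ↔
      Real.cos θ * z 0 + Real.sin θ * z 1 = d := by
    intro z
    rw [AffineSubspace.mem_mk', Submodule.mem_span_singleton]
    constructor
    · rintro ⟨c, hc⟩
      have h0 := congrArg (fun w : Plane => w 0) hc
      have h1 := congrArg (fun w : Plane => w 1) hc
      simp only [vsub_eq_sub, PiLp.smul_apply, PiLp.sub_apply, smul_eq_mul, hv0, hv1, hp0,
        hp1] at h0 h1
      linear_combination (-Real.cos θ) * h0 - Real.sin θ * h1 + d * hsc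
    · intro h
      refine ⟨-Real.sin θ * z 0 + Real.cos θ * z 1, ?_⟩
      ext i
      fin_cases i
      · simp only [Fin.zero_eta, vsub_eq_sub, PiLp.smul_apply, PiLp.sub_apply, smul_eq_mul, hv0,
          hp0]
        linear_combination z 0 * hsc - Real.cos θ * h
      · simp only [Fin.mk_one, vsub_eq_sub, PiLp.smul_apply, PiLp.sub_apply, smul_eq_mul, hv1,
          hp1]
        linear_combination z 1 * hsc - Real.sin θ * h
  have hpL : p ∈ AffineSubspace.mk' p (ℝ ∙ v) := AffineSubspace.self_mem_mk' _ _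
  refine ⟨AffineSubspace.mk' p (ℝ ∙ v), ⟨⟨p, hpL⟩, ?_, ?_⟩, ?_, hmem⟩
  · rw [AffineSubspace.direction_mk']
    apply finrank_span_singleton
    intro h
    have h2 := hnorm v
    rw [h, norm_zero, ← h, hv0, hv1] at h2
    nlinarith
  · intro h
    rw [hmem] at h
    simp only [PiLp.zero_apply, mul_zero, add_zero] at h
    linarith
  · unfold shoreDist
    apply le_antisymm
    · refine (Metric.infDist_le_dist_of_mem (x := (0 : Plane)) hpL).trans ?_
      rw [dist_zero_left]
      have h1 : ‖p‖ ^ 2 = d ^ 2 := by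
        rw [hnorm, hp0, hp1]
        linear_combination d ^ 2 * hsc
      exact le_of_eq ((sq_eq_sq₀ (norm_nonneg _) hd.le).1 h1)
    · refine (Metric.le_infDist ⟨p, hpL⟩).2 ?_
      intro z hz
      have hz' := (hmem z).1 hz
      rw [dist_zero_left]
      refine abs_le_of_sq_le_sq' ?_ (norm_nonneg z) |>.2
      rw [hnorm]
      have : z 0 ^ 2 + z 1 ^ 2 = d ^ 2 + (Real.sin θ * z 0 - Real.cos θ * z 1) ^ 2 := by
        rw [← hz']
        linear_combination (-(z 0 ^ 2 + z 1 ^ 2)) * hsc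
      nlinarith [sq_nonneg (Real.sin θ * z 0 - Real.cos θ * z 1)]

theorem traj_ratio_aux
    (no_path : ∀ y₀ y₁ : ℝ → ℝ,
      (∀ s t, (y₀ s - y₀ t) ^ 2 + (y₁ s - y₁ t) ^ 2 ≤ (s - t) ^ 2) →
      (∀ θ : ℝ, Search1 (fun t => Real.cos θ * y₀ t + Real.sin θ * y₁ t)) → False)
    (line_shore : ∀ θ d : ℝ, 0 < d → ∃ L : AffineSubspace ℝ Plane, IsShore L ∧
      shoreDist L = d ∧ ∀ z : Plane, z ∈ L ↔ Real.cos θ * z 0 + Real.sin θ * z 1 = d)
    (γ : ℝ → Plane) (hγ : IsTrajectory γ) : ENNReal.ofReal (64 / 5) ≤ ratio γ := by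
  by_contra hcon
  rw [not_le] at hcon
  have hit : ∀ θ d : ℝ, 0 < d → ∃ t, 0 ≤ t ∧ t ≤ 64 / 5 * d ∧
      Real.cos θ * γ (max t 0) 0 + Real.sin θ * γ (max t 0) 1 = d := by
    intro θ d hd
    obtain ⟨L, hL, hLd, hLm⟩ := line_shore θ d hd
    have h1 : hitTime γ L / ENNReal.ofReal (shoreDist L) ≤ ratio γ :=
      le_iSup₂ (f := fun (L : AffineSubspace ℝ Plane) (_ : L ∈ {L : AffineSubspace ℝ Plane | IsShore L}) =>
        hitTime γ L / ENNReal.ofReal (shoreDist L)) L hL
    have h2 := lt_of_le_of_lt h1 hcon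
    rw [hLd, ENNReal.div_lt_iff (Or.inl (by simpa using hd)) (Or.inl ENNReal.ofReal_ne_top),
      ← ENNReal.ofReal_mul (by norm_num)] at h2
    unfold hitTime at h2
    rw [iInf_lt_iff] at h2
    obtain ⟨t, ht⟩ := h2
    rw [iInf_lt_iff] at ht
    obtain ⟨⟨ht0, htL⟩, ht⟩ := ht
    have h3 : t < 64 / 5 * d := (ENNReal.ofReal_lt_ofReal_iff (by positivity)).1 ht
    refine ⟨t, ht0, h3.le, ?_⟩
    rw [max_eq_left ht0]
    exact (hLm _).1 htL
  have hlip : ∀ s t, (γ (max s 0) 0 - γ (max t 0) 0) ^ 2 + (γ (max s 0) 1 - γ (max t 0) 1) ^ 2 ≤ (s - t) ^ 2 := by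
    intro s t
    have h1 := hγ.2 (max s 0) (max t 0) (le_max_right _ _) (le_max_right _ _)
    have h2 := h1.trans (abs_max_sub_max_le_abs s t 0)
    have h3 : ‖γ (max s 0) - γ (max t 0)‖ ^ 2 = (γ (max s 0) 0 - γ (max t 0) 0) ^ 2 + (γ (max s 0) 1 - γ (max t 0) 1) ^ 2 := by
      rw [EuclideanSpace.norm_sq_eq, Fin.sum_univ_two]
      simp [Real.norm_eq_abs, sq_abs]
    rw [← h3, ← sq_abs (s - t)]
    exact pow_le_pow_left₀ (norm_nonneg _) h2 2
  refine no_path (fun t => γ (max t 0) 0) (fun t => γ (max t 0) 1) hlip ?_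
  intro θ
  refine ⟨?_, ?_, ?_, ?_⟩
  · simp [hγ.1]
  · intro s t
    rw [← sq_le_sq]
    refine le_trans ?_ (hlip s t)
    have hcs := Real.cos_sq_add_sin_sq θ
    simp only
    set A := γ (max s 0) 0
    set B := γ (max s 0) 1
    set A' := γ (max t 0) 0
    set B' := γ (max t 0) 1
    have e1 : (A - A') ^ 2 + (B - B') ^ 2 - (Real.cos θ * A + Real.sin θ * B - (Real.cos θ * A' + Real.sin θ * B')) ^ 2 =
      (Real.sin θ * (A - A') - Real.cos θ * (B - B')) ^ 2 + (1 - (Real.cos θ ^ 2 + Real.sin θ ^ 2)) * ((A - A') ^ 2 + (B - B') ^ 2) := by ring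
    rw [hcs] at e1
    nlinarith [sq_nonneg (Real.sin θ * (A - A') - Real.cos θ * (B - B'))]
  · intro d hd
    exact hit θ d hd
  · intro d hd
    obtain ⟨t, h0, h1, h2⟩ := hit (θ + Real.pi) d hd
    refine ⟨t, h0, h1, ?_⟩
    rw [Real.cos_add_pi, Real.sin_add_pi] at h2
    simp only
    linarith

/-- every trajectory has competitive ratio at least `64/5 = 12.8` -/
theorem traj_ratio (γ : ℝ → Plane) (hγ : IsTrajectory γ) : ENNReal.ofReal (64 / 5) ≤ ratio γ :=
  traj_ratio_aux no_path line_shore γ hγ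

/-- The minimax competitive ratio of the shoreline search problem is at least `12.8`. -/
theorem result : ENNReal.ofReal (64 / 5) ≤ rhoStar := by
  unfold rhoStar
  exact le_iInf₂ fun γ hγ => traj_ratio γ hγ

end Pool.Agent.Results.MP_d27861_lc.ShoreBound
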